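import Pool.Agent.Q106.ReconfGraph

/-!
# MP_746574_co, Q1: graphs whose minimal-domination reconfiguration graph is a tree

`R(G)` is a tree if and only if `G` is the disjoint union of an edgeless graph and a star.
-/

set_option autoImplicit false

namespace Pool.Agent.Results.MP_746574_co.TreeIffStar

open Q106.ReconfGraph

open scoped SimpleGraph

/-- All edges of `G` share a vertex iff `G` is a disjoint union of an edgeless graph and a star. -/
theorem star_iff {V : Type*} [Finite V] (G : SimpleGraph V) :
    (∃ v : V, ∀ x y, G.Adj x y → x = v ∨ y = v) ↔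
      ∃ n m : ℕ, Nonempty (G ≃g ((⊥ : SimpleGraph (Fin n)) ⊕g
        completeBipartiteGraph (Fin 1) (Fin m))) := by
  classical
  have := Fintype.ofFinite V
  constructor
  · rintro ⟨c, hc⟩
    let Z := {x : V // x ≠ c ∧ ¬ G.Adj c x}
    let L := {x : V // G.Adj c x}
    let eZ : Fin (Fintype.card Z) ≃ Z := (Fintype.equivFin Z).symm
    let eL : Fin (Fintype.card L) ≃ L := (Fintype.equivFin L).symm
    let f : Fin (Fintype.card Z) ⊕ (Fin 1 ⊕ Fin (Fintype.card L)) → V :=
      Sum.elim (fun i => (eZ i).1) (Sum.elim (fun _ => c) (fun i => (eL i).1))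
    have hinj : Function.Injective f := by
      rintro (i | i | i) (j | j | j) h
      · have : eZ i = eZ j := Subtype.ext h
        rw [eZ.injective this]
      · exact absurd h (eZ i).2.1
      · exact absurd (show G.Adj c (eZ i).1 from (show (eZ i).1 = (eL j).1 from h) ▸ (eL j).2)
          (eZ i).2.2
      · exact absurd h.symm (eZ j).2.1
      · rw [Subsingleton.elim i j]
      · exact absurd (show c = (eL j).1 from h) (eL j).2.ne
      · exact absurd (show G.Adj c (eZ j).1 from (show (eL i).1 = (eZ j).1 from h) ▸ (eL i).2)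
          (eZ j).2.2
      · exact absurd (show (eL i).1 = c from h) (eL i).2.ne'
      · have : eL i = eL j := Subtype.ext h
        rw [eL.injective this]
    have hsurj : Function.Surjective f := by
      intro x
      by_cases h1 : x = c
      · exact ⟨Sum.inr (Sum.inl 0), h1.symm⟩
      by_cases h2 : G.Adj c x
      · refine ⟨Sum.inr (Sum.inr (eL.symm ⟨x, h2⟩)), ?_⟩
        simp [f]
      · refine ⟨Sum.inl (eZ.symm ⟨x, h1, h2⟩), ?_⟩
        simp [f]
    have hnadj : ∀ x y, x ≠ c → y ≠ c → ¬ G.Adj x y := by
      intro x y hx hy hxy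
      rcases hc x y hxy with h | h
      · exact hx h
      · exact hy h
    refine ⟨_, _, ⟨(RelIso.mk (Equiv.ofBijective f ⟨hinj, hsurj⟩) ?_ :
      ((⊥ : SimpleGraph (Fin _)) ⊕g completeBipartiteGraph (Fin 1) (Fin _)) ≃g G).symm⟩⟩
    rintro (i | i | i) (j | j | j)
    · simp only [Equiv.ofBijective_apply]
      simp [f, SimpleGraph.sum]
      exact hnadj _ _ (eZ i).2.1 (eZ j).2.1
    · simp [f, SimpleGraph.sum]
      exact fun h => (eZ i).2.2 h.symm
    · simp [f, SimpleGraph.sum]
      exact hnadj _ _ (eZ i).2.1 (eL j).2.ne'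
    · simp [f, SimpleGraph.sum]
      exact (eZ j).2.2
    · simp [f, SimpleGraph.sum, completeBipartiteGraph]
    · simp [f, SimpleGraph.sum, completeBipartiteGraph]
      exact (eL j).2
    · simp [f, SimpleGraph.sum]
      exact hnadj _ _ (eL i).2.ne' (eZ j).2.1
    · simp [f, SimpleGraph.sum, completeBipartiteGraph]
      exact (eL i).2.symm
    · simp [f, SimpleGraph.sum, completeBipartiteGraph]
      exact hnadj _ _ (eL i).2.ne' (eL j).2.ne'
  · rintro ⟨n, m, ⟨e⟩⟩
    refine ⟨e.symm (Sum.inr (Sum.inl 0)), ?_⟩
    intro x y hxy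
    have h := (e.map_adj_iff).mpr hxy
    rw [RelIso.eq_symm_apply, RelIso.eq_symm_apply]
    revert h
    generalize e x = a
    generalize e y = b
    intro h
    rcases a with a | a | a <;> rcases b with b | b | b <;>
      simp_all [SimpleGraph.sum, completeBipartiteGraph, Subsingleton.elim _ (0 : Fin 1)]

/-- **Main result.** For a finite graph `G` with at least one vertex, the reconfiguration graph
`R(G)` of the minimal dominating sets is a tree if and only if `G` is isomorphic to the disjoint
union of an edgeless graph and a star `K_{1,m}`, `m ≥ 0`. -/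
theorem result {V : Type*} [Finite V] [Nonempty V] (G : SimpleGraph V) :
    (reconf G).IsTree ↔
      ∃ n m : ℕ, Nonempty (G ≃g ((⊥ : SimpleGraph (Fin n)) ⊕g
        completeBipartiteGraph (Fin 1) (Fin m))) := by
  rw [← star_iff]
  constructor
  · intro h
    by_contra hcon
    obtain ⟨M, c, hc, _⟩ := exists_short_cycle hcon inferInstance
    exact h.2 c hc
  · rintro ⟨v, hv⟩
    exact star_isTree hv

end Pool.Agent.Results.MP_746574_co.TreeIffStar
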